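import Pool.Agent.ZGO.StmtsA

/-!
# Row CNT
-/

set_option autoImplicit false

open scoped BigOperators Pointwise

namespace Pool.Agent.ZGO.H61

/-- functions which are constant on finitely many classes and have finitely many values -/
theorem fin_fun {P : Type} (s : Setoid P) [Finite (Quotient s)] (T : Set QZ) (hT : T.Finite) :
    {f : P → QZ | (∀ x y, s x y → f x = f y) ∧ ∀ x, f x ∈ T}.Finite := by
  classical
  haveI : Finite T := hT
  refine (Set.finite_range fun (g : Quotient s → T) => fun x : P =>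
    ((g (Quotient.mk s x) : T) : QZ)).subset ?_
  rintro f ⟨h1, h2⟩
  refine ⟨fun q => ⟨f q.out, h2 _⟩, ?_⟩
  funext x
  exact h1 _ _ (Quotient.exact (Quotient.out_eq (Quotient.mk s x)))

theorem fin_val {P : Type} (s : Setoid P) [Finite (Quotient s)] (f : P → QZ)
    (h1 : ∀ x y, s x y → f x = f y) (S : AddSubgroup QZ) (hS : ∀ u, u ∈ S ↔ ∃ x, f x = u) (x : P) :
    (Nat.card (Quotient s)).factorial • f x = 0 := by
  classical
  -- `S` is the image of the classes
  let g : Quotient s → S := fun q => ⟨f q.out, (hS _).2 ⟨_, rfl⟩⟩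
  have hg : Function.Surjective g := by
    rintro ⟨u, hu⟩
    obtain ⟨y, hy⟩ := (hS u).1 hu
    refine ⟨Quotient.mk s y, Subtype.ext ?_⟩
    show f (Quotient.mk s y).out = u
    rw [← hy]
    exact h1 _ _ (Quotient.exact (Quotient.out_eq (Quotient.mk s y)))
  haveI : Finite S := Finite.of_surjective g hg
  have h2 : Nat.card S ≤ Nat.card (Quotient s) := Nat.card_le_card_of_surjective g hg
  have h3 : 0 < Nat.card S := Nat.card_pos
  obtain ⟨k, hk⟩ := Nat.dvd_factorial h3 h2
  have h4 : Nat.card S • (⟨f x, (hS _).2 ⟨x, rfl⟩⟩ : S) = 0 := by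
    have h5 := addOrderOf_dvd_natCard (⟨f x, (hS _).2 ⟨x, rfl⟩⟩ : S)
    exact addOrderOf_dvd_iff_nsmul_eq_zero.1 h5
  have h5 : Nat.card S • f x = 0 := congrArg (fun u : S => (u : QZ)) h4
  rw [hk, mul_comm, mul_nsmul', h5, nsmul_zero]

/-- CNT -/
theorem cnt (h : ChmStmt) : CntStmt := by
  intro P _ d ψ N A B hL H hH
  obtain ⟨-, -, -, -, -, -, -, h8⟩ := h P d ψ N A B hL
  haveI := hH
  constructor
  · haveI : Finite (Quotient (QuotientGroup.rightRel H)) :=
      Finite.of_equiv _ (QuotientGroup.quotientRightRelEquivQuotientLeftRel H).symm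
    refine (fin_fun (QuotientGroup.rightRel H)
      {u | (Nat.card (Quotient (QuotientGroup.rightRel H))).factorial • u = 0}
      (AddCircle.finite_torsion 1 (Nat.factorial_pos _))).subset ?_
    rintro f ⟨hf, hi⟩
    have h1 : ∀ x y, (QuotientGroup.rightRel H) x y → f x = f y := by
      intro x y hxy
      have h2 := QuotientGroup.rightRel_apply.1 hxy
      have h3 := hi _ h2 x
      rw [← h3]
      congr 1
      group
    obtain ⟨S, hS⟩ := h8 f hf
    exact ⟨h1, fun x => fin_val _ f h1 S hS x⟩
  · haveI : Finite (Quotient (QuotientGroup.leftRel H)) := by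
      have : Finite (P ⧸ H) := inferInstance
      exact this
    refine (fin_fun (QuotientGroup.leftRel H)
      {u | (Nat.card (Quotient (QuotientGroup.leftRel H))).factorial • u = 0}
      (AddCircle.finite_torsion 1 (Nat.factorial_pos _))).subset ?_
    rintro f ⟨hf, hi⟩
    have h1 : ∀ x y, (QuotientGroup.leftRel H) x y → f x = f y := by
      intro x y hxy
      have h2 := QuotientGroup.leftRel_apply.1 hxy
      have h3 := hi x _ h2
      rw [← h3]
      congr 1
      group
    obtain ⟨S, hS⟩ := h8 f hf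
    exact ⟨h1, fun x => fin_val _ f h1 S hS x⟩

end Pool.Agent.ZGO.H61
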